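import Mathlib
import Pool.Agent.Helper832.AutC.Local

/-!
Groups of class at most two in which the number of class-preserving automorphisms equals the
product of the class sizes of a generating family.
-/

set_option autoImplicit false

open scoped commutatorElement

namespace Pool.Agent.Results.MP_5dd2c0_al.ClassTwo

open Pool.Agent.Helper832.AutC

theorem result :
    -- class at most two: the criterion
    (∀ (G : Type) [Group G] [Finite G], (∀ a b c : G, ⁅⁅a, b⁆, c⁆ = 1) →
      ∀ (d : ℕ) (x : Fin d → G), Subgroup.closure (Set.range x) = ⊤ →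
      (Attains x ↔ ∀ N : Subgroup G, (∃ c : G, commutator G = Subgroup.zpowers c ⊔ N) →
        ∀ a : Fin d → ℤ, (∀ g : G, ⁅wd x a, g⁆ ∈ N) → ∀ (i : Fin d) (g : G), ⁅x i ^ a i, g⁆ ∈ N)) ∧
    -- every class: the condition is necessary modulo every normal `N ≥ γ₃`
    (∀ (G : Type) [Group G] [Finite G] (d : ℕ) (x : Fin d → G),
      Subgroup.closure (Set.range x) = ⊤ → Attains x →
      ∀ N : Subgroup G, N.Normal → (∀ a b c : G, ⁅⁅a, b⁆, c⁆ ∈ N) →
      ∀ a : Fin d → ℤ, (∀ g : G, ⁅wd x a, g⁆ ∈ N) → ∀ (i : Fin d) (g : G), ⁅x i ^ a i, g⁆ ∈ N) ∧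
    -- class at most two, cyclic derived subgroup: equality is attained
    (∀ (p : ℕ) (G : Type) [Fact p.Prime] [Group G] [Finite G], IsPGroup p G →
      (∀ a b c : G, ⁅⁅a, b⁆, c⁆ = 1) → IsCyclic (commutator G) →
      ∃ (d : ℕ) (x : Fin d → G), IsMinGen x ∧ Attains x) := by
  refine ⟨?_, ?_, ?_⟩
  · intro G _ _ hc d x hgen
    exact attains_iff_critC hc x hgen
  · intro G _ _ d x hgen hat N hN h a ha i g
    haveI := hN
    exact necessary x ((attains_iff x hgen).mp hat) N h a ha i g
  · intro p G _ _ _ hG hc hcyc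
    exact exists_minGen hG hcyc hc

end Pool.Agent.Results.MP_5dd2c0_al.ClassTwo
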