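import Mathlib
import Pool.Agent.Helper832.AutC.TwoGen

/-!
Two-generator p-groups in which the number of class-preserving automorphisms equals the product of
the class sizes of a minimal generating family.
-/

set_option autoImplicit false

open scoped commutatorElement

namespace Pool.Agent.Results.MP_5dd2c0_al.TwoGenerators

open Pool.Agent.Helper832.AutC

theorem result :
    -- two generators, class at most three, `p` odd: the full answer
    (∀ (p : ℕ) (G : Type) [Fact p.Prime] [Group G] [Finite G], p ≠ 2 → IsPGroup p G →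
      (∃ x y : G, Subgroup.closure {x, y} = ⊤) → (∀ a b c d : G, ⁅⁅⁅a, b⁆, c⁆, d⁆ = 1) →
      ((∃ (d : ℕ) (x : Fin d → G), IsMinGen x ∧ Attains x) ↔
        ∃ s t : G, commutator G = Subgroup.closure {s, t})) ∧
    -- two generators, every class, `p` odd: a necessary condition
    (∀ (p : ℕ) (G : Type) [Fact p.Prime] [Group G] [Finite G], p ≠ 2 → IsPGroup p G →
      (∃ x y : G, Subgroup.closure {x, y} = ⊤) →
      (∃ (d : ℕ) (x : Fin d → G), IsMinGen x ∧ Attains x) →
        ∃ s t : G, commutator G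
          = Subgroup.closure {s, t} ⊔ ⁅⁅commutator G, (⊤ : Subgroup G)⁆, (⊤ : Subgroup G)⁆) ∧
    -- two generators, product of two abelian subgroups, every `p`: equality is attained
    (∀ (p : ℕ) (G : Type) [Fact p.Prime] [Group G] [Finite G], IsPGroup p G →
      (∃ x y : G, Subgroup.closure {x, y} = ⊤) → ∀ A B : Subgroup G,
      (∀ a ∈ A, ∀ b ∈ A, a * b = b * a) → (∀ a ∈ B, ∀ b ∈ B, a * b = b * a) →
      (∀ g : G, ∃ a ∈ A, ∃ b ∈ B, g = a * b) →
      ∃ (d : ℕ) (x : Fin d → G), IsMinGen x ∧ Attains x) := by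
  refine ⟨?_, ?_, ?_⟩
  · intro p G _ _ _ hp2 hG ⟨x, y, hxy⟩ h3
    exact two_gen_iff hp2 hG h3 x y hxy
  · intro p G _ _ _ hp2 hG ⟨x, y, hxy⟩ h
    exact two_gen_nec hp2 hG x y hxy h
  · intro p G _ _ _ hG ⟨x, y, hxy⟩ A B hA hB hAB
    exact two_gen_prod hG x y hxy A B hA hB hAB

end Pool.Agent.Results.MP_5dd2c0_al.TwoGenerators
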